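import Mathlib
import Pool.Agent.Run7.h316.LinkedRank

/-!
A pair of vertices that is linked in `G` in `ℝ^(d+1)` is globally linked in `G` in `ℝ^d`.
-/

namespace Pool.Agent.Results.MP_32f1bc_co.LinkedGloballyLinked

variable {V : Type*} {m : ℕ}

/-- A realization `p : V → ℝ^m` is generic if its `m * |V|` coordinates are algebraically
independent over `ℚ`. -/
def IsGeneric (p : V → EuclideanSpace ℝ (Fin m)) : Prop :=
  AlgebraicIndependent ℚ (fun i : V × Fin m => p i.1 i.2)

open Classical in
/-- The row of the pair `xy` in the rigidity matrix of `p`: `p x - p y` in the `m` columns of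
`x`, `p y - p x` in the `m` columns of `y`, zeros elsewhere. -/
noncomputable def rigidityRow (p : V → EuclideanSpace ℝ (Fin m)) (x y : V) : V × Fin m → ℝ :=
  fun i => (if i.1 = x then p x i.2 - p y i.2 else 0)
    + (if i.1 = y then p y i.2 - p x i.2 else 0)

/-- The rank of the rigidity matrix of `(G, p)`, i.e. the dimension of the span of the rows
of the edges of `G`. -/
noncomputable def rigidityRank (G : SimpleGraph V) (p : V → EuclideanSpace ℝ (Fin m)) : ℕ :=
  Module.finrank ℝ (Submodule.span ℝ {r | ∃ x y, G.Adj x y ∧ r = rigidityRow p x y})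

/-- `{u, v}` is linked in `G` in `ℝ^m`: adding the edge `uv` does not change the rank of the
rigidity matrix of a generic realization (the rank is the same for all generic realizations,
so `for some` may be replaced by `for all`, see `linked_iff`). -/
def Linked (m : ℕ) (G : SimpleGraph V) (u v : V) : Prop :=
  ∃ p : V → EuclideanSpace ℝ (Fin m), IsGeneric p ∧
    rigidityRank (G ⊔ SimpleGraph.edge u v) p = rigidityRank G p

/-- `(G, p)` and `(G, q)` are equivalent. -/
def Equivalent (G : SimpleGraph V) (p q : V → EuclideanSpace ℝ (Fin m)) : Prop :=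
  ∀ x y, G.Adj x y → ‖p x - p y‖ = ‖q x - q y‖

/-- `{u, v}` is globally linked in `G` in `ℝ^m`. -/
def GloballyLinked (m : ℕ) (G : SimpleGraph V) (u v : V) : Prop :=
  ∀ p q : V → EuclideanSpace ℝ (Fin m), IsGeneric p → Equivalent G p q →
    ‖p u - p v‖ = ‖q u - q v‖

lemma norm_sq (x y : EuclideanSpace ℝ (Fin m)) : ‖x - y‖ ^ 2 = ∑ a, (x a - y a) ^ 2 := by
  rw [EuclideanSpace.norm_eq, Real.sq_sqrt (Finset.sum_nonneg fun i _ => sq_nonneg _)]
  exact Finset.sum_congr rfl fun i _ => by simp

lemma rigidityRank_eq (G : SimpleGraph V) (p : V → EuclideanSpace ℝ (Fin m)) :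
    rigidityRank G p =
      Module.finrank ℝ (Submodule.span ℝ (Run7.h316.rowSet G (fun x a => p x a))) := rfl

/-- The rank of the rigidity matrix does not depend on the generic realization. -/
lemma rigidityRank_generic [Fintype V] (G : SimpleGraph V)
    {p q : V → EuclideanSpace ℝ (Fin m)} (hp : IsGeneric p) (hq : IsGeneric q) :
    rigidityRank G p = rigidityRank G q := by
  rw [rigidityRank_eq, rigidityRank_eq]
  exact Run7.h316.finrank_generic G (P := fun x a => p x a) (Q := fun x a => q x a) hp hq

/-- Generic realizations exist. -/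
lemma exists_generic [Fintype V] (m : ℕ) : ∃ p : V → EuclideanSpace ℝ (Fin m), IsGeneric p := by
  obtain ⟨h, hh⟩ := Run7.h316.exists_algebraicIndependent ℚ (V × Fin m)
  exact ⟨fun x => WithLp.toLp 2 (fun a => h (x, a)), hh⟩

/-- In the definition of linked pairs, `for some generic` and `for all generic` agree. -/
lemma linked_iff [Fintype V] (m : ℕ) (G : SimpleGraph V) (u v : V) :
    Linked m G u v ↔ ∀ p : V → EuclideanSpace ℝ (Fin m), IsGeneric p →
      rigidityRank (G ⊔ SimpleGraph.edge u v) p = rigidityRank G p := by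
  constructor
  · rintro ⟨p, hp, h⟩ q hq
    rw [rigidityRank_generic _ hq hp, rigidityRank_generic _ hq hp, h]
  · intro h
    obtain ⟨p, hp⟩ := exists_generic (V := V) m
    exact ⟨p, hp, h p hp⟩

/-- For every `d`, every finite graph `G` and every pair `{u, v}` of its vertices: if `{u, v}`
is linked in `G` in `ℝ^(d+1)`, then `{u, v}` is globally linked in `G` in `ℝ^d`. -/
theorem result : ∀ (d : ℕ) {V : Type*} [Fintype V] (G : SimpleGraph V) (u v : V),
    Linked (d + 1) G u v → GloballyLinked d G u v := by
  intro d V _ G u v hlink p q hp hpq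
  obtain ⟨P, hP, hrank⟩ := hlink
  rw [rigidityRank_eq, rigidityRank_eq] at hrank
  have h := Run7.h316.linked_globallyLinked G u v (P := fun x a => P x a) hP hrank
    (p := fun x a => p x a) (q := fun x a => q x a) hp (by
      intro x y hxy
      have h1 := hpq x y hxy
      rw [← norm_sq, ← norm_sq, h1])
  rw [← norm_sq, ← norm_sq] at h
  exact (sq_eq_sq₀ (norm_nonneg _) (norm_nonneg _)).mp h

end Pool.Agent.Results.MP_32f1bc_co.LinkedGloballyLinked
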